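import Pool.Agent.Helper45.PL.IND
import Pool.Agent.Helper13.PLF.Defs

/-!
Project PL, block PLF: the induction on the level.
-/

set_option autoImplicit false

namespace Pool.Agent.PRL

open VC IntermediateField NumberField IsDedekindDomain Pool.Agent.SC
open Filter Topology
open Pool.Agent.L (L0 MM)
open Pool.Agent.LN (Geo Act)
open Pool.Agent.M (Moves OverPl inL0)
open Pool.Agent.ML (HasMu BPl)
open Pool.Agent.TOW (Au AuE)
open Pool.Agent.PDL (L0_le_MM rare_mono45)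

/-- BLOCK PLF -/
theorem pLF (hCHN : StmtCHN) (hPXL : StmtPXL) (hSTP : StmtSTP) : StmtPLF := by
  intro k K0 E U _ _ _ _ _ _ _ _ _ _ _ _ ℓ h r hℓ hℓ2 hμ geo N₁ hN₁ hMN₁ hab hfour hBr
  have hcl : IsAlgClosed E := geo.clE
  have key : ∀ n : ℕ, ∀ N : IntermediateField E U, TW.Lvl E K0 N → ∀ hBN : N₁ ≤ N,
      IsPL E K0 ℓ N → Module.finrank (L0 E K0 (U := U))
        (IntermediateField.extendScalars (L0_le_MM.trans (hMN₁.trans hBN))) = n →
      PD.Rare ℓ (fun c : k => ∃ Φ : (E ≃ₐ[k] E) →* (U ≃+* U), Act (K0 := K0) ℓ r c Φ ∧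
        ¬ FixB E K0 ℓ h N Φ) := by
    intro n
    induction n using Nat.strong_induction_on with
    | _ n ih =>
    intro N hN hBN hPLN hn
    by_cases hBN' : N₁ = N
    · rw [← hBN']
      exact hBr
    obtain ⟨N', hN', hBN₁, hne, hcen⟩ := hCHN k K0 E U ℓ h r hℓ geo N₁ N hN₁ hMN₁ hN hBN hBN' hPLN
    have hMN' : MM E K0 r ≤ N' := hMN₁.trans hBN₁
    have hlt : Module.finrank (L0 E K0 (U := U))
        (IntermediateField.extendScalars (L0_le_MM.trans (hMN₁.trans hBN₁))) < n := by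
      rw [← hn]
      exact finrank_lt45 hN.ff geo.ff _ _ hcen.le hne
    have hN'r := ih _ hlt N' hN' hBN₁ (hPLN.mono hcen.le) rfl
    -- finitely many places
    obtain ⟨-, hbr⟩ := hPXL k K0 E U ℓ h r hℓ geo N' hN' hMN'
    have hfinQ : {Q : Place E N' | ∃ b, BPl ℓ h b ∧ OverPl b Q}.Finite := by
      have h1 : {Q : Place E N' | ∃ b, BPl ℓ h b ∧ OverPl b Q} =
          ⋃ b ∈ {b : Place E (L0 E K0 (U := U)) | BPl ℓ h b}, {Q : Place E N' | OverPl b Q} := by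
        ext Q
        simp only [Set.mem_ofPred_eq, Set.mem_iUnion, exists_prop]
      rw [h1]
      exact (bpl_fin geo hℓ).biUnion fun b hb => (hbr b hb).2.1
    refine rare_mono45 (rare_or45 hN'r (rare_fin45 hfinQ
      (P := fun Q c => ∃ Φ : (E ≃ₐ[k] E) →* (U ≃+* U), Act (K0 := K0) ℓ r c Φ ∧
        (∀ g : E ≃ₐ[k] E, Moves (Φ g) N' Q Q) ∧ ¬ FixB E K0 ℓ h N Φ) ?_)) ?_
    · rintro Q ⟨b₀, hb₀, hQ⟩
      exact hSTP k K0 E U ℓ h r hℓ hℓ2 hμ geo N₁ N' N hN₁ hMN₁ hab hfour hN' hBN₁ hN hPLN hcen b₀ Q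
        hb₀ hQ
    · rintro c - ⟨Φ, A, hno⟩
      by_cases hex : FixB E K0 ℓ h N' Φ
      · obtain ⟨b, Q, hb, hQ, hm⟩ := hex
        exact Or.inr ⟨Q, ⟨b, hb, hQ⟩, Φ, A, hm, hno⟩
      · exact Or.inl ⟨Φ, A, hex⟩
  intro N hN hBN hPLN
  exact key _ N hN hBN hPLN rfl

end Pool.Agent.PRL
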