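import Pool.Agent.Helper45.PL.Defs
import Mathlib.GroupTheory.Sylow
import Mathlib.GroupTheory.Perm.Cycle.Type
import Mathlib.Data.Nat.Choose.Factorization

/-!
Project PL, block B11: `CycS` if there are fewer than `2 ℓ` branch points; change of the algebraic
closure.
-/

set_option autoImplicit false

namespace Pool.Agent.PRL

open Polynomial Pool.Agent.PDL

namespace H70

section congr

variable {k E E' : Type} [Field k] [Field E] [Field E'] [Algebra k E] [Algebra k E']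

theorem isBr_congr (e : E ≃ₐ[k] E') (ℓ : ℕ) (f : k[X]) (β : E) :
    IsBr ℓ f (e β) ↔ IsBr ℓ f β := by
  have h1 : f.map (algebraMap k E') = (f.map (algebraMap k E)).map (e : E →+* E') := by
    rw [Polynomial.map_map]
    congr 1
    ext x
    exact (e.commutes x).symm
  have h2 : (f.map (algebraMap k E)).rootMultiplicity β =
      (f.map (algebraMap k E')).rootMultiplicity (e β) := by
    rw [h1]
    exact Polynomial.eq_rootMultiplicity_map (f := (e : E →+* E')) e.injective β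
  unfold IsBr
  rw [h2]

theorem cycS_congr (e : E ≃ₐ[k] E') (ℓ : ℕ) (f : k[X]) (h : CycS k E ℓ f) : CycS k E' ℓ f := by
  obtain ⟨S, ⟨hn, σ₀, hσ⟩, hS⟩ := h
  set c : (E ≃ₐ[k] E) ≃* (E' ≃ₐ[k] E') := AlgEquiv.autCongr e with hc
  have hcb : ∀ (σ : E ≃ₐ[k] E) (β : E'), c σ β = e (σ (e.symm β)) := fun σ β => rfl
  refine ⟨S.map c.toMonoidHom, ⟨hn.map _ c.surjective, c σ₀, ?_⟩, ?_⟩
  · have h1 : S.map c.toMonoidHom ⊔ Subgroup.zpowers (c σ₀) =
        (S ⊔ Subgroup.zpowers σ₀).map c.toMonoidHom := by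
      rw [Subgroup.map_sup, MonoidHom.map_zpowers]
      rfl
    rw [h1, Subgroup.index_map_of_bijective c.bijective]
    exact hσ
  · rintro _ ⟨σ, hσS, rfl⟩
    obtain ⟨m, hm⟩ := hS σ hσS
    refine ⟨m, fun β hβ => ?_⟩
    have h2 : (c.toMonoidHom σ) ^ (ℓ ^ m) = c (σ ^ (ℓ ^ m)) := (map_pow c σ _).symm
    rw [h2, hcb, hm (e.symm β) ((isBr_congr e ℓ f (e.symm β)).1 (by simpa using hβ))]
    simp

end congr

section grp

theorem exists_cyc {R : Type*} [Group R] [Finite R] {ℓ : ℕ} (hℓ : ℓ.Prime)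
    (h : ¬ ℓ ^ 2 ∣ Nat.card R) : ∃ σ : R, ¬ ℓ ∣ (Subgroup.zpowers σ).index := by
  classical
  by_cases hd : ℓ ∣ Nat.card R
  · have : Fact ℓ.Prime := ⟨hℓ⟩
    obtain ⟨σ, hσ⟩ := exists_prime_orderOf_dvd_card' ℓ hd
    refine ⟨σ, fun hi => h ?_⟩
    have h1 := Subgroup.card_mul_index (Subgroup.zpowers σ)
    rw [Nat.card_zpowers, hσ] at h1
    rw [← h1, pow_two]
    exact Nat.mul_dvd_mul_left ℓ hi
  · refine ⟨1, fun hi => hd ?_⟩
    rw [Subgroup.zpowers_one_eq_bot, Subgroup.index_bot] at hi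
    exact hi

theorem not_sq_dvd_factorial {ℓ n : ℕ} (hℓ : ℓ.Prime) (hn : n < 2 * ℓ) : ¬ ℓ ^ 2 ∣ n.factorial := by
  intro h
  have h1 : Nat.log ℓ n < 2 := by
    refine Nat.log_lt_of_lt_pow' (by norm_num) ?_
    have := hℓ.two_le
    nlinarith
  have h2 : (n.factorial).factorization ℓ = n / ℓ := by
    rw [Nat.factorization_factorial hℓ h1]
    simp
  have h3 : 2 ≤ (n.factorial).factorization ℓ :=
    (hℓ.pow_dvd_iff_le_factorization n.factorial_ne_zero).1 h
  have h4 : n / ℓ < 2 := by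
    rw [Nat.div_lt_iff_lt_mul hℓ.pos]
    exact hn
  omega

end grp

section act

variable {k E : Type} [Field k] [Field E] [Algebra k E]

/-- the action on the branch points -/
def actBr (ℓ : ℕ) (f : k[X]) : (E ≃ₐ[k] E) →* Equiv.Perm {θ : E // IsBr ℓ f θ} where
  toFun σ := {
    toFun := fun θ => ⟨σ θ.1, (isBr_congr σ ℓ f θ.1).2 θ.2⟩
    invFun := fun θ => ⟨σ.symm θ.1, (isBr_congr σ.symm ℓ f θ.1).2 θ.2⟩
    left_inv := fun θ => Subtype.ext (σ.symm_apply_apply _)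
    right_inv := fun θ => Subtype.ext (σ.apply_symm_apply _) }
  map_one' := Equiv.ext fun _ => Subtype.ext rfl
  map_mul' _ _ := Equiv.ext fun _ => Subtype.ext rfl

theorem actBr_ker (ℓ : ℕ) (f : k[X]) : (actBr (E := E) ℓ f).ker = brS k E ℓ f := by
  ext σ
  rw [MonoidHom.mem_ker]
  constructor
  · intro h β hβ
    have h1 := congrArg (fun π : Equiv.Perm {θ : E // IsBr ℓ f θ} => (π ⟨β, hβ⟩).1) h
    exact h1
  · intro h
    exact Equiv.ext fun θ => Subtype.ext (h θ.1 θ.2)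

theorem finite_br (ℓ : ℕ) {f : k[X]} (hf : f ≠ 0) : Finite {θ : E // IsBr ℓ f θ} := by
  classical
  have h0 : f.map (algebraMap k E) ≠ 0 := (Polynomial.map_ne_zero_iff
    (algebraMap k E).injective).2 hf
  refine Set.Finite.to_subtype (s := {θ : E | IsBr ℓ f θ})
    (((f.map (algebraMap k E)).roots.toFinset).finite_toSet.subset fun θ hθ => ?_)
  rw [Finset.mem_coe, Multiset.mem_toFinset, Polynomial.mem_roots h0]
  rw [← Polynomial.rootMultiplicity_pos h0]
  by_contra h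
  have h1 : (f.map (algebraMap k E)).rootMultiplicity θ = 0 := by omega
  exact hθ (h1 ▸ dvd_zero ℓ)

theorem cycS_of_lt {ℓ : ℕ} (hℓ : ℓ.Prime) {f : k[X]} (hf : f ≠ 0)
    (h : Nat.card {θ : E // IsBr ℓ f θ} < 2 * ℓ) : CycS k E ℓ f := by
  classical
  have hfin := finite_br (E := E) ℓ hf
  have : Fintype {θ : E // IsBr ℓ f θ} := Fintype.ofFinite _
  set ψ := actBr (E := E) ℓ f with hψ
  have hcard : Nat.card ψ.range ∣ (Nat.card {θ : E // IsBr ℓ f θ}).factorial := by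
    have h1 := Subgroup.card_subgroup_dvd_card ψ.range
    rwa [Nat.card_perm] at h1
  obtain ⟨τ, hτ⟩ := exists_cyc (R := ψ.range) hℓ fun h2 =>
    not_sq_dvd_factorial hℓ h (h2.trans hcard)
  obtain ⟨σ₀, hσ₀⟩ := ψ.rangeRestrict_surjective τ
  refine ⟨brS k E ℓ f, ⟨?_, σ₀, ?_⟩, fun σ hσ => ⟨0, fun β hβ => ?_⟩⟩
  · rw [← actBr_ker]
    exact MonoidHom.normal_ker _
  · have h3 : (brS k E ℓ f ⊔ Subgroup.zpowers σ₀).map ψ.rangeRestrict = Subgroup.zpowers τ := by
      rw [Subgroup.map_sup, MonoidHom.map_zpowers, hσ₀, ← actBr_ker, ← hψ,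
        (Subgroup.map_eq_bot_iff ψ.ker).2 (by rw [ψ.ker_rangeRestrict]), bot_sup_eq]
    have h4 : (brS k E ℓ f ⊔ Subgroup.zpowers σ₀).index =
        ((brS k E ℓ f ⊔ Subgroup.zpowers σ₀).map ψ.rangeRestrict).index :=
      (Subgroup.index_map_eq _ ψ.rangeRestrict_surjective (by
        rw [ψ.ker_rangeRestrict, hψ, actBr_ker]
        exact le_sup_left)).symm
    rw [h4, h3]
    exact hτ
  · rw [pow_zero, pow_one]
    exact hσ β hβ

end act

end H70

/-- BLOCK B11 -/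
theorem sYL : StmtSYL := by
  intro k E _ _ _ _ _ _ ℓ f hℓ hf
  have : IsAlgClosure k E := ⟨inferInstance, inferInstance⟩
  exact ⟨fun h => H70.cycS_congr (IsAlgClosure.equiv k (AlgebraicClosure k) E) ℓ f h,
    fun h => H70.cycS_of_lt hℓ hf h⟩

end Pool.Agent.PRL
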